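import Pool.Agent.helper93.VD.SpecB1

set_option autoImplicit false

open scoped ContDiff Topology InnerProductSpace
open MeasureTheory Filter Set

namespace Pool.Agent.VD

theorem LMX_QQle {m : ℕ} (z : Z m) : QQ z ≤ ‖z.1‖ * ‖z.2‖ := real_inner_le_norm z.1 z.2

theorem LMX_mono {m : ℕ} {c C : ℝ} (hc : 0 < c) (L : ℕ → Z m →L[ℝ] Z m) (h : ∀ i, LH c C (L i)) (n : ℕ) (z : Z m) :
    QQ z ≤ QQ (pl L n z) := by
  induction n with
  | zero => exact le_rfl
  | succ n ih =>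
    have h1 := (h n).hy (pl L n z)
    have h2 : pl L (n + 1) z = L n (pl L n z) := rfl
    rw [h2]
    have h3 : 0 ≤ c * ‖pl L n z‖ ^ 2 := by positivity
    linarith

theorem LMX_first {m : ℕ} {c C : ℝ} (hc : 0 < c) (L : ℕ → Z m →L[ℝ] Z m) (h : ∀ i, LH c C (L i)) (n : ℕ) (z : Z m) :
    QQ z + c * ‖z‖ ^ 2 ≤ QQ (pl L (n + 1) z) := by
  induction n with
  | zero => exact (h 0).hy z
  | succ n ih =>
    have h1 := (h (n + 1)).hy (pl L (n + 1) z)
    have h2 : pl L (n + 1 + 1) z = L (n + 1) (pl L (n + 1) z) := rfl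
    rw [h2]
    have h3 : 0 ≤ c * ‖pl L (n + 1) z‖ ^ 2 := by positivity
    linarith

theorem LMX_last {m : ℕ} {c C : ℝ} (hc : 0 < c) (hC : 1 ≤ C) (L : ℕ → Z m →L[ℝ] Z m) (h : ∀ i, LH c C (L i)) (n : ℕ) (w : W m) :
    c * ‖pl L (n + 1) (0, w)‖ ^ 2 ≤ C ^ 2 * QQ (pl L (n + 1) (0, w)) := by
  have h1 := (h n).hy (pl L n (0, w))
  have h0 := LMX_mono hc L h n ((0 : W m), w)
  have hz : QQ ((0 : W m), w) = 0 := inner_zero_left _
  rw [hz] at h0
  have h2 : pl L (n + 1) (0, w) = L n (pl L n (0, w)) := rfl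
  rw [h2]
  have h3 := (h n).bd (pl L n (0, w))
  have h4 : ‖L n (pl L n (0, w))‖ ^ 2 ≤ (C * ‖pl L n (0, w)‖) ^ 2 := pow_le_pow_left₀ (norm_nonneg _) h3 2
  have h5 : c * ‖L n (pl L n (0, w))‖ ^ 2 ≤ c * (C * ‖pl L n (0, w)‖) ^ 2 := mul_le_mul_of_nonneg_left h4 hc.le
  have h6 : c * ‖pl L n (0, w)‖ ^ 2 ≤ QQ (L n (pl L n (0, w))) := by linarith
  have h7 := mul_le_mul_of_nonneg_left h6 (by positivity : 0 ≤ C ^ 2)
  have e : c * (C * ‖pl L n (0, w)‖) ^ 2 = C ^ 2 * (c * ‖pl L n (0, w)‖ ^ 2) := by ring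
  linarith

theorem LMX_P {m : ℕ} {c C : ℝ} (hc : 0 < c) (Ps : ℕ → Z m →L[ℝ] Z m) (h : ∀ i, LH c C (Ps i))
    (hdet : ∀ n : ℕ, 1 ≤ n → 0 < dB (pl Ps n)) (k : ℕ) : ∃ (α : Z m →L[ℝ] W m) (A : W m →L[ℝ] W m),
    (ContinuousLinearMap.fst ℝ (W m) (W m)).comp (pl Ps k) = A.comp α ∧ 0 < |A.det| ∧ (1 ≤ k → A = Bk (pl Ps k)) ∧
    (∀ z, ‖α z‖ ≤ (1 + 1 / c) * ‖z‖) ∧ ∀ z, QQ z ≤ ‖z‖ * ‖α z‖ := by
  rcases Nat.eq_zero_or_pos k with hk | hk
  · subst hk
    refine ⟨ContinuousLinearMap.fst ℝ (W m) (W m), ContinuousLinearMap.id ℝ (W m), ?_, ?_, ?_, ?_, ?_⟩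
    · refine ContinuousLinearMap.ext fun z => ?_
      rfl
    · have : (ContinuousLinearMap.id ℝ (W m)).det = 1 := by
        change LinearMap.det (LinearMap.id : W m →ₗ[ℝ] W m) = 1
        exact LinearMap.det_id
      rw [this]
      norm_num
    · intro h0
      omega
    · intro z
      have h1 : ‖z.1‖ ≤ ‖z‖ := norm_fst_le z
      have h2 : 0 ≤ 1 / c * ‖z‖ := by positivity
      change ‖z.1‖ ≤ _
      linarith
    · intro z
      refine (LMX_QQle z).trans ?_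
      rw [mul_comm]
      exact mul_le_mul_of_nonneg_right (norm_snd_le z) (norm_nonneg _)
  · have hd : (Bk (pl Ps k)).det ≠ 0 := by
      have := hdet k hk
      unfold dB at this
      exact abs_pos.1 this
    obtain ⟨e, he⟩ : ∃ e : W m ≃L[ℝ] W m, (e : W m →L[ℝ] W m) = Bk (pl Ps k) :=
      ⟨(Bk (pl Ps k)).toContinuousLinearEquivOfDetNeZero hd, ContinuousLinearMap.coe_toContinuousLinearEquivOfDetNeZero _ hd⟩
    have hee : ∀ w, e w = (pl Ps k (0, w)).1 := by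
      intro w
      have : (e : W m →L[ℝ] W m) w = Bk (pl Ps k) w := by rw [he]
      exact this
    obtain ⟨k', rfl⟩ : ∃ k', k = k' + 1 := ⟨k - 1, by omega⟩
    obtain ⟨α, hα⟩ : ∃ α : Z m →L[ℝ] W m, α = (e.symm : W m →L[ℝ] W m).comp ((ContinuousLinearMap.fst ℝ (W m) (W m)).comp (pl Ps (k' + 1))) := ⟨_, rfl⟩
    have hαz : ∀ z, α z = e.symm (pl Ps (k' + 1) z).1 := by
      intro z
      rw [hα]
      rfl
    -- the graph
    obtain ⟨S, hS⟩ : ∃ S : W m → W m, ∀ j, S j = -α (j, 0) := ⟨fun j => -α (j, 0), fun j => rfl⟩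
    have hα0 : ∀ w, α (0, w) = w := by
      intro w
      rw [hαz, ← hee, e.symm_apply_apply]
    have hαS : ∀ z : Z m, α z = z.2 - S z.1 := by
      intro z
      have e1 : z = (z.1, (0 : W m)) + ((0 : W m), z.2) := by
        ext1
        · simp
        · simp
      have e2 : α z = α (z.1, (0 : W m)) + α ((0 : W m), z.2) := by
        rw [← map_add, ← e1]
      rw [e2, hα0, hS]
      abel
    have hSb : ∀ j : W m, ⟪j, S j⟫_ℝ + c * ‖((j, S j) : Z m)‖ ^ 2 ≤ 0 := by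
      intro j
      have h1 : α (j, S j) = 0 := by
        rw [hαS]
        simp
      have h2 : (pl Ps (k' + 1) (j, S j)).1 = 0 := by
        rw [hαz] at h1
        exact (map_eq_zero_iff e.symm e.symm.injective).1 h1
      have h3 := LMX_first hc Ps h k' (j, S j)
      have h4 : QQ (pl Ps (k' + 1) (j, S j)) = 0 := by
        unfold QQ
        rw [h2, inner_zero_left]
      rw [h4] at h3
      exact h3
    have hSn : ∀ j : W m, c * ‖S j‖ ≤ ‖j‖ := by
      intro j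
      have h1 := hSb j
      have h2 := (abs_le.1 (abs_real_inner_le_norm j (S j))).1
      have h3 : ‖S j‖ ≤ ‖((j, S j) : Z m)‖ := norm_snd_le ((j, S j) : Z m)
      have h4 : ‖j‖ * ‖S j‖ ≤ ‖j‖ * ‖((j, S j) : Z m)‖ := mul_le_mul_of_nonneg_left h3 (norm_nonneg _)
      have h5 : c * ‖((j, S j) : Z m)‖ ^ 2 ≤ ‖j‖ * ‖((j, S j) : Z m)‖ := by linarith
      rcases (norm_nonneg ((j, S j) : Z m)).eq_or_lt with h6 | h6
      · rw [← h6] at h3
        have : ‖S j‖ = 0 := le_antisymm h3 (norm_nonneg _)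
        rw [this, mul_zero]
        exact norm_nonneg _
      · have h7 : c * ‖((j, S j) : Z m)‖ ≤ ‖j‖ := by
          by_contra hcon
          push Not at hcon
          have := mul_lt_mul_of_pos_right hcon h6
          nlinarith
        have := mul_le_mul_of_nonneg_left h3 hc.le
        linarith
    refine ⟨α, Bk (pl Ps (k' + 1)), ?_, abs_pos.2 hd, fun _ => rfl, ?_, ?_⟩
    · rw [← he]
      refine ContinuousLinearMap.ext fun z => ?_
      change (pl Ps (k' + 1) z).1 = e (α z)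
      rw [hαz, e.apply_symm_apply]
    · intro z
      rw [hαS]
      have h1 : ‖z.2 - S z.1‖ ≤ ‖z.2‖ + ‖S z.1‖ := norm_sub_le _ _
      have h2 : ‖z.2‖ ≤ ‖z‖ := norm_snd_le z
      have h3 : ‖z.1‖ ≤ ‖z‖ := norm_fst_le z
      have h4 := hSn z.1
      have h5 : ‖S z.1‖ ≤ 1 / c * ‖z‖ := by
        rw [div_mul_eq_mul_div, le_div_iff₀ hc]
        linarith
      linarith
    · intro z
      have h1 := hSb z.1
      have h2 : QQ z = ⟪z.1, α z⟫_ℝ + ⟪z.1, S z.1⟫_ℝ := by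
        rw [hαS]
        unfold QQ
        rw [← inner_add_right, sub_add_cancel]
      have h3 : ⟪z.1, α z⟫_ℝ ≤ ‖z.1‖ * ‖α z‖ := real_inner_le_norm _ _
      have h4 : ‖z.1‖ * ‖α z‖ ≤ ‖z‖ * ‖α z‖ := mul_le_mul_of_nonneg_right (norm_fst_le z) (norm_nonneg _)
      have h5 : 0 ≤ c * ‖((z.1, S z.1) : Z m)‖ ^ 2 := by positivity
      linarith

theorem LMX_R {m : ℕ} {c C K0 : ℝ} (hc : 0 < c) (hC : 1 ≤ C) (hK0 : 1 ≤ K0) (Rs : ℕ → Z m →L[ℝ] Z m) (h : ∀ i, LH c C (Rs i))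
    (hdet : ∀ n : ℕ, 1 ≤ n → 0 < dB (pl Rs n)) (hcone : ∀ n : ℕ, 1 ≤ n → ∀ w : W m, ‖pl Rs n (0, w)‖ ≤ K0 * ‖(pl Rs n (0, w)).1‖) (l : ℕ) :
    ∃ (β : W m →L[ℝ] Z m) (A : W m →L[ℝ] W m),
    (pl Rs l).comp (ContinuousLinearMap.inr ℝ (W m) (W m)) = β.comp A ∧ 0 < |A.det| ∧
    (1 ≤ l → A = Bk (pl Rs l) ∧ ∀ x, c * ‖β x‖ ^ 2 ≤ C ^ 2 * QQ (β x)) ∧ (∀ x, 0 ≤ QQ (β x)) ∧
    ∀ x, ‖x‖ ≤ ‖β x‖ ∧ ‖β x‖ ≤ K0 * ‖x‖ := by
  rcases Nat.eq_zero_or_pos l with hl | hl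
  · subst hl
    refine ⟨ContinuousLinearMap.inr ℝ (W m) (W m), ContinuousLinearMap.id ℝ (W m), ?_, ?_, ?_, ?_, ?_⟩
    · refine ContinuousLinearMap.ext fun z => ?_
      rfl
    · have : (ContinuousLinearMap.id ℝ (W m)).det = 1 := by
        change LinearMap.det (LinearMap.id : W m →ₗ[ℝ] W m) = 1
        exact LinearMap.det_id
      rw [this]
      norm_num
    · intro h0
      omega
    · intro x
      have : QQ ((0 : W m), x) = 0 := inner_zero_left _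
      exact this.ge
    · intro x
      have e : ‖((0 : W m), x)‖ = ‖x‖ := by
        rw [Prod.norm_def]
        simp
      have e2 : ‖(ContinuousLinearMap.inr ℝ (W m) (W m)) x‖ = ‖x‖ := e
      rw [e2]
      exact ⟨le_rfl, le_mul_of_one_le_left (norm_nonneg _) hK0⟩
  · have hd : (Bk (pl Rs l)).det ≠ 0 := by
      have := hdet l hl
      unfold dB at this
      exact abs_pos.1 this
    obtain ⟨e, he⟩ : ∃ e : W m ≃L[ℝ] W m, (e : W m →L[ℝ] W m) = Bk (pl Rs l) :=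
      ⟨(Bk (pl Rs l)).toContinuousLinearEquivOfDetNeZero hd, ContinuousLinearMap.coe_toContinuousLinearEquivOfDetNeZero _ hd⟩
    have hee : ∀ w, e w = (pl Rs l (0, w)).1 := by
      intro w
      have : (e : W m →L[ℝ] W m) w = Bk (pl Rs l) w := by rw [he]
      exact this
    obtain ⟨β, hβ⟩ : ∃ β : W m →L[ℝ] Z m, β = ((pl Rs l).comp (ContinuousLinearMap.inr ℝ (W m) (W m))).comp (e.symm : W m →L[ℝ] W m) := ⟨_, rfl⟩
    have hβx : ∀ x, β x = pl Rs l (0, e.symm x) := by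
      intro x
      rw [hβ]
      rfl
    have h1x : ∀ x, (β x).1 = x := by
      intro x
      rw [hβx, ← hee, e.apply_symm_apply]
    obtain ⟨l', rfl⟩ : ∃ l', l = l' + 1 := ⟨l - 1, by omega⟩
    refine ⟨β, Bk (pl Rs (l' + 1)), ?_, abs_pos.2 hd, fun _ => ⟨rfl, ?_⟩, ?_, ?_⟩
    · rw [← he]
      refine ContinuousLinearMap.ext fun z => ?_
      change pl Rs (l' + 1) (0, z) = β (e z)
      rw [hβx, e.symm_apply_apply]
    · intro x
      rw [hβx]
      exact LMX_last hc hC Rs h l' _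
    · intro x
      rw [hβx]
      have h0 := LMX_mono hc Rs h (l' + 1) ((0 : W m), e.symm x)
      have hz : QQ ((0 : W m), e.symm x) = 0 := inner_zero_left _
      rw [hz] at h0
      exact h0
    · intro x
      constructor
      · have := norm_fst_le (β x)
        rwa [h1x] at this
      · have := hcone (l' + 1) hl (e.symm x)
        rw [← hβx, h1x] at this
        exact this

theorem LMX_det {m : ℕ} (A B : W m →L[ℝ] W m) : (A.comp B).det = A.det * B.det := by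
  change LinearMap.det ((A : W m →ₗ[ℝ] W m).comp (B : W m →ₗ[ℝ] W m)) = _
  exact LinearMap.det_comp _ _

theorem LMX_proof (hLPC : LPC_stmt) : LMX_stmt := by
  intro m c C hc hC
  obtain ⟨K0, hK0, H⟩ := hLPC m c C hc hC
  have hC0 : 0 < C := by linarith
  obtain ⟨K, hK⟩ : ∃ K, K = (1 + 1 / c) * C * K0 + C ^ 3 / c + C ^ 2 / c := ⟨_, rfl⟩
  have p1 : 0 < 1 / c := by positivity
  have p2 : 0 ≤ C ^ 3 / c := by positivity
  have p3 : 0 ≤ C ^ 2 / c := by positivity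
  have p4 : (1 + 1 / c) * K0 ≤ (1 + 1 / c) * C * K0 := by
    have : (1 + 1 / c) * C * K0 = C * ((1 + 1 / c) * K0) := by ring
    rw [this]
    exact le_mul_of_one_le_left (by positivity) hC
  have p5 : 1 ≤ (1 + 1 / c) * K0 := one_le_mul_of_one_le_of_one_le (by linarith) hK0
  refine ⟨K, by linarith, ?_⟩
  intro Ps Rs hP hR k l
  obtain ⟨α, A, a1, a2, a3, a4, a5⟩ := LMX_P hc Ps hP (fun n hn => (H Ps hP n hn 0).2.2.2.2) k
  obtain ⟨β, A', b1, b2, b3, b4, b5⟩ := LMX_R hc hC hK0 Rs hR (fun n hn => (H Rs hR n hn 0).2.2.2.2) (fun n hn w => (H Rs hR n hn w).2.1) l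
  have nα : ‖α‖ ≤ 1 + 1 / c := ContinuousLinearMap.opNorm_le_bound _ (by positivity) a4
  have nβ : ‖β‖ ≤ K0 := ContinuousLinearMap.opNorm_le_bound _ (by positivity) fun x => (b5 x).2
  have hdec : ∀ L : Z m →L[ℝ] Z m, dB ((pl Ps k).comp (L.comp (pl Rs l))) = |A.det| * |A'.det| * |(α.comp (L.comp β)).det| := by
    intro L
    have e : Bk ((pl Ps k).comp (L.comp (pl Rs l))) = A.comp ((α.comp (L.comp β)).comp A') := by
      have e1 : Bk ((pl Ps k).comp (L.comp (pl Rs l))) =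
          ((ContinuousLinearMap.fst ℝ (W m) (W m)).comp (pl Ps k)).comp (L.comp ((pl Rs l).comp (ContinuousLinearMap.inr ℝ (W m) (W m)))) := rfl
      rw [e1, a1, b1]
      rfl
    unfold dB
    rw [e, LMX_det, LMX_det, abs_mul, abs_mul]
    ring
  -- the lower bound
  have hlow : ∀ (z : Z m) (κ : ℝ), 0 < κ → κ * ‖z‖ ^ 2 ≤ QQ z → κ * ‖z‖ ≤ ‖α z‖ := by
    intro z κ hκ hz
    have h1 := a5 z
    rcases (norm_nonneg z).eq_or_lt with h6 | h6
    · rw [← h6, mul_zero]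
      exact norm_nonneg _
    · by_contra hcon
      push Not at hcon
      have := mul_lt_mul_of_pos_left hcon h6
      nlinarith
  refine ⟨fun L => α.comp (L.comp β), |A.det| * |A'.det|, mul_pos a2 b2, ?_, ?_, ?_⟩
  · intro L L'
    have e : α.comp (L.comp β) - α.comp (L'.comp β) = α.comp ((L - L').comp β) := by
      ext x : 1
      simp
    change ‖α.comp (L.comp β) - α.comp (L'.comp β)‖ ≤ _
    rw [e]
    have h1 : ‖α.comp ((L - L').comp β)‖ ≤ ‖α‖ * ‖(L - L').comp β‖ := ContinuousLinearMap.opNorm_comp_le _ _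
    have h2 : ‖(L - L').comp β‖ ≤ ‖L - L'‖ * ‖β‖ := ContinuousLinearMap.opNorm_comp_le _ _
    have h3 : ‖α‖ * ‖(L - L').comp β‖ ≤ (1 + 1 / c) * (‖L - L'‖ * K0) :=
      mul_le_mul nα (h2.trans (mul_le_mul_of_nonneg_left nβ (norm_nonneg _))) (norm_nonneg _) (by positivity)
    have h4 : (1 + 1 / c) * (‖L - L'‖ * K0) ≤ K * ‖L - L'‖ := by
      have : (1 + 1 / c) * (‖L - L'‖ * K0) = (1 + 1 / c) * K0 * ‖L - L'‖ := by ring
      rw [this]
      exact mul_le_mul_of_nonneg_right (by linarith) (norm_nonneg _)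
    linarith
  · intro L hL
    refine ⟨fun x => ?_, hdec L⟩
    change ‖x‖ ≤ K * ‖α (L (β x))‖ ∧ ‖α (L (β x))‖ ≤ K * ‖x‖
    obtain ⟨c1, c2⟩ := b5 x
    have d1 := hL.bd (β x)
    have d2 := hL.lo (β x)
    have d3 := hL.hy (β x)
    have d4 := b4 x
    constructor
    · have h1 : c / C ^ 2 * ‖L (β x)‖ ^ 2 ≤ QQ (L (β x)) := by
        have h2 : ‖L (β x)‖ ^ 2 ≤ (C * ‖β x‖) ^ 2 := pow_le_pow_left₀ (norm_nonneg _) d1 2
        have h3 : c / C ^ 2 * ‖L (β x)‖ ^ 2 ≤ c / C ^ 2 * (C * ‖β x‖) ^ 2 := mul_le_mul_of_nonneg_left h2 (by positivity)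
        have h4 : c / C ^ 2 * (C * ‖β x‖) ^ 2 = c * ‖β x‖ ^ 2 := by
          field_simp
        linarith
      have h5 := hlow _ _ (by positivity) h1
      have h6 : ‖x‖ ≤ C * ‖L (β x)‖ := c1.trans d2
      have h7 : ‖x‖ ≤ C ^ 3 / c * ‖α (L (β x))‖ := by
        have h8 : C ^ 3 / c * (c / C ^ 2 * ‖L (β x)‖) ≤ C ^ 3 / c * ‖α (L (β x))‖ := mul_le_mul_of_nonneg_left h5 p2
        have h9 : C ^ 3 / c * (c / C ^ 2 * ‖L (β x)‖) = C * ‖L (β x)‖ := by
          field_simp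
        linarith
      refine h7.trans (mul_le_mul_of_nonneg_right ?_ (norm_nonneg _))
      linarith
    · have h1 := a4 (L (β x))
      have h2 : ‖L (β x)‖ ≤ C * (K0 * ‖x‖) := d1.trans (mul_le_mul_of_nonneg_left c2 hC0.le)
      have h3 : (1 + 1 / c) * ‖L (β x)‖ ≤ (1 + 1 / c) * (C * (K0 * ‖x‖)) := mul_le_mul_of_nonneg_left h2 (by positivity)
      have h4 : (1 + 1 / c) * (C * (K0 * ‖x‖)) = (1 + 1 / c) * C * K0 * ‖x‖ := by ring
      have h5 : (1 + 1 / c) * C * K0 * ‖x‖ ≤ K * ‖x‖ := mul_le_mul_of_nonneg_right (by linarith) (norm_nonneg _)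
      linarith
  · intro hk hl
    obtain ⟨b6, b7⟩ := b3 hl
    refine ⟨?_, fun x => ?_, ?_⟩
    · unfold dB
      rw [a3 hk, b6]
    · change ‖x‖ ≤ K * ‖α (β x)‖ ∧ ‖α (β x)‖ ≤ K * ‖x‖
      obtain ⟨c1, c2⟩ := b5 x
      constructor
      · have h1 : c / C ^ 2 * ‖β x‖ ^ 2 ≤ QQ (β x) := by
          have h2 := b7 x
          rw [div_mul_eq_mul_div, div_le_iff₀ (by positivity)]
          linarith
        have h5 := hlow _ _ (by positivity) h1
        have h7 : ‖x‖ ≤ C ^ 2 / c * ‖α (β x)‖ := by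
          have h8 : C ^ 2 / c * (c / C ^ 2 * ‖β x‖) ≤ C ^ 2 / c * ‖α (β x)‖ := mul_le_mul_of_nonneg_left h5 p3
          have h9 : C ^ 2 / c * (c / C ^ 2 * ‖β x‖) = ‖β x‖ := by
            field_simp
          linarith
        refine h7.trans (mul_le_mul_of_nonneg_right ?_ (norm_nonneg _))
        linarith
      · have h1 := a4 (β x)
        have h3 : (1 + 1 / c) * ‖β x‖ ≤ (1 + 1 / c) * (K0 * ‖x‖) := mul_le_mul_of_nonneg_left c2 (by positivity)
        have h4 : (1 + 1 / c) * (K0 * ‖x‖) = (1 + 1 / c) * K0 * ‖x‖ := by ring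
        have h5 : (1 + 1 / c) * K0 * ‖x‖ ≤ K * ‖x‖ := mul_le_mul_of_nonneg_right (by linarith) (norm_nonneg _)
        linarith
    · have := hdec (ContinuousLinearMap.id ℝ (Z m))
      rw [ContinuousLinearMap.id_comp] at this
      exact this

end Pool.Agent.VD
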