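import Pool.Agent.helper93.VD.SpecB1

set_option autoImplicit false

open scoped ContDiff Topology InnerProductSpace
open MeasureTheory Filter Set

namespace Pool.Agent.VD

theorem NFD_QQ {m : ℕ} (u r : Z m) : QQ u - 2 * (‖u‖ * ‖r‖) - ‖r‖ ^ 2 ≤ QQ (u + r) := by
  have h1 : QQ (u + r) = QQ u + ⟪u.1, r.2⟫_ℝ + ⟪r.1, u.2⟫_ℝ + ⟪r.1, r.2⟫_ℝ := by
    unfold QQ
    rw [Prod.fst_add, Prod.snd_add, inner_add_left, inner_add_right, inner_add_right]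
    ring
  have a1 : ‖u.1‖ ≤ ‖u‖ := norm_fst_le u
  have a2 : ‖u.2‖ ≤ ‖u‖ := norm_snd_le u
  have b1 : ‖r.1‖ ≤ ‖r‖ := norm_fst_le r
  have b2 : ‖r.2‖ ≤ ‖r‖ := norm_snd_le r
  have i1 := (abs_le.1 (abs_real_inner_le_norm u.1 r.2)).1
  have i2 := (abs_le.1 (abs_real_inner_le_norm r.1 u.2)).1
  have i3 := (abs_le.1 (abs_real_inner_le_norm r.1 r.2)).1
  have m1 : ‖u.1‖ * ‖r.2‖ ≤ ‖u‖ * ‖r‖ := mul_le_mul a1 b2 (norm_nonneg _) (norm_nonneg _)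
  have m2 : ‖r.1‖ * ‖u.2‖ ≤ ‖r‖ * ‖u‖ := mul_le_mul b1 a2 (norm_nonneg _) (norm_nonneg _)
  have m3 : ‖r.1‖ * ‖r.2‖ ≤ ‖r‖ * ‖r‖ := mul_le_mul b1 b2 (norm_nonneg _) (norm_nonneg _)
  rw [h1]
  nlinarith

theorem NFD_proof : NFD_stmt := by
  intro m c C e0 hc hC he0
  have hC0 : 0 < C := by linarith
  obtain ⟨e1, he1⟩ : ∃ e1, e1 = min (min (e0 / 2) (c / (16 * C ^ 2))) (min 1 (1 / (4 * C ^ 2))) := ⟨_, rfl⟩
  have l1 : e1 ≤ e0 / 2 := by rw [he1]; exact (min_le_left _ _).trans (min_le_left _ _)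
  have l2 : e1 ≤ c / (16 * C ^ 2) := by rw [he1]; exact (min_le_left _ _).trans (min_le_right _ _)
  have l3 : e1 ≤ 1 := by rw [he1]; exact (min_le_right _ _).trans (min_le_left _ _)
  have l4 : e1 ≤ 1 / (4 * C ^ 2) := by rw [he1]; exact (min_le_right _ _).trans (min_le_right _ _)
  have hpos : 0 < e1 := by
    rw [he1]
    exact lt_min (lt_min (by positivity) (by positivity)) (lt_min one_pos (by positivity))
  have l2' : 16 * C ^ 2 * e1 ≤ c := by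
    rw [le_div_iff₀ (by positivity)] at l2
    linarith
  have l4' : 4 * C ^ 2 * e1 ≤ 1 := by
    rw [le_div_iff₀ (by positivity)] at l4
    linarith
  refine ⟨e1, hpos, l1, ?_⟩
  intro F hF a b ha hb
  obtain ⟨s, hs⟩ : ∃ s, s = Metric.closedBall (0 : Z m) e1 := ⟨_, rfl⟩
  have hsb : ∀ z ∈ s, z ∈ Metric.ball (0 : Z m) e0 := by
    intro z hz
    rw [hs, mem_closedBall_zero_iff] at hz
    rw [mem_ball_zero_iff]
    linarith
  have has : a ∈ s := by rw [hs, mem_closedBall_zero_iff]; exact ha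
  have hbs : b ∈ s := by rw [hs, mem_closedBall_zero_iff]; exact hb
  have hcv : Convex ℝ s := by rw [hs]; exact convex_closedBall _ _
  have hdf : ∀ z ∈ s, DifferentiableAt ℝ F z := fun z hz =>
    (hF.cd.contDiffAt (Metric.isOpen_ball.mem_nhds (hsb z hz))).differentiableAt one_ne_zero
  have hnb : ∀ z ∈ s, ‖fderiv ℝ F z‖ ≤ C := fun z hz =>
    ContinuousLinearMap.opNorm_le_bound _ hC0.le (hF.lh z (hsb z hz)).bd
  have h1 : ‖F a - F b‖ ≤ C * ‖a - b‖ := hcv.norm_image_sub_le_of_norm_fderiv_le hdf hnb hbs has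
  have hlip : ∀ z ∈ s, ‖fderiv ℝ F z - fderiv ℝ F b‖ ≤ 2 * C * e1 := by
    intro z hz
    refine (hF.lip z (hsb z hz) b (hsb b hbs)).trans ?_
    have hz' : ‖z‖ ≤ e1 := by
      rw [hs, mem_closedBall_zero_iff] at hz
      exact hz
    have h2 : ‖z - b‖ ≤ 2 * e1 := (norm_sub_le z b).trans (by linarith)
    have := mul_le_mul_of_nonneg_left h2 hC0.le
    linarith
  have h2 : ‖F a - F b - fderiv ℝ F b (a - b)‖ ≤ 2 * C * e1 * ‖a - b‖ :=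
    hcv.norm_image_sub_le_of_norm_fderiv_le' hdf hlip hbs has
  have hLH := hF.lh b (hsb b hbs)
  obtain ⟨u, hu⟩ : ∃ u, u = fderiv ℝ F b (a - b) := ⟨_, rfl⟩
  obtain ⟨r, hr⟩ : ∃ r, r = F a - F b - u := ⟨_, rfl⟩
  obtain ⟨x, hx⟩ : ∃ x, x = ‖a - b‖ := ⟨_, rfl⟩
  have hx0 : 0 ≤ x := by rw [hx]; exact norm_nonneg _
  rw [← hu, ← hr, ← hx] at h2
  have hFu : F a - F b = u + r := by rw [hr]; abel
  have u1 : ‖u‖ ≤ C * x := by
    rw [hu, hx]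
    exact hLH.bd _
  have u2 : x ≤ C * ‖u‖ := by
    rw [hu, hx]
    exact hLH.lo _
  have u3 : QQ (a - b) + c * x ^ 2 ≤ QQ u := by
    rw [hu, hx]
    exact hLH.hy _
  rw [← hx]
  rw [← hx] at h1
  have hr0 := norm_nonneg r
  have hu0 := norm_nonneg u
  refine ⟨?_, h1, ?_⟩
  · rw [hFu]
    have q := NFD_QQ u r
    have p1 : ‖u‖ * ‖r‖ ≤ (C * x) * (2 * C * e1 * x) := mul_le_mul u1 h2 hr0 (by positivity)
    have p2 : ‖r‖ ^ 2 ≤ (2 * C * e1 * x) ^ 2 := pow_le_pow_left₀ hr0 h2 2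
    have p3 : (2 * C * e1 * x) ^ 2 ≤ 4 * C ^ 2 * e1 * x ^ 2 := by
      have e : (2 * C * e1 * x) ^ 2 = 4 * C ^ 2 * e1 * x ^ 2 * e1 := by ring
      rw [e]
      exact mul_le_of_le_one_right (by positivity) l3
    have p4 : 16 * C ^ 2 * e1 * x ^ 2 ≤ c * x ^ 2 := mul_le_mul_of_nonneg_right l2' (by positivity)
    have e2 : (C * x) * (2 * C * e1 * x) = 2 * C ^ 2 * e1 * x ^ 2 := by ring
    rw [e2] at p1
    linarith
  · have t1 : ‖u‖ ≤ ‖F a - F b‖ + ‖r‖ := by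
      have : u = (F a - F b) - r := by rw [hFu]; abel
      rw [this]
      exact norm_sub_le _ _
    have t2 : C * ‖u‖ ≤ C * (‖F a - F b‖ + 2 * C * e1 * x) := mul_le_mul_of_nonneg_left (by linarith) hC0.le
    have t3 : 4 * C ^ 2 * e1 * x ≤ 1 * x := mul_le_mul_of_nonneg_right l4' hx0
    nlinarith

end Pool.Agent.VD
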